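import Mathlib
import Pool.Agent.Y298.EX.Stm
import Pool.Agent.Y272.GA.Frt

/-!
# Exact exponents in the space of all polynomials near `z ^ d + c₀`: statements
-/

set_option autoImplicit false

open Set Filter Metric MeasureTheory Topology

namespace Pool.Agent.Y272.EX

open Pool.Agent.Y298.CA (Lyap)
open Pool.Agent.Y272.GA (FF ee dF NE)

/-- The polynomials with a cycle which attracts all critical points. -/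
def AA (d : ℕ) : Set (Fin (d + 1) → ℂ) :=
  {b | ∃ n : ℕ, 0 < n ∧ ∃ x : ℂ, (FF d b)^[n] x = x ∧ ‖deriv ((FF d b)^[n]) x‖ < 1 ∧
    ∀ κ : ℂ, dF d b κ = 0 → Tendsto (fun k : ℕ => (FF d b)^[n * k] κ) atTop (𝓝 x)}

/-- The polynomials with a cycle which attracts a critical point. -/
def NA (d : ℕ) : Set (Fin (d + 1) → ℂ) :=
  {b | ∃ n : ℕ, 0 < n ∧ ∃ x : ℂ, (FF d b)^[n] x = x ∧ ‖deriv ((FF d b)^[n]) x‖ < 1 ∧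
    ∃ κ : ℂ, dF d b κ = 0 ∧ Tendsto (fun k : ℕ => (FF d b)^[n * k] κ) atTop (𝓝 x)}

/-- A disc mapped into itself contains an attracting fixed point. -/
def S_TRAP : Prop := ∀ (g : ℂ → ℂ) (κ : ℂ) (ρ : ℝ), 0 < ρ → Differentiable ℂ g →
  (∀ z ∈ closedBall κ ρ, g z ∈ ball κ ρ) → ∃ x ∈ ball κ ρ, g x = x ∧ ‖deriv g x‖ < 1 ∧
    ∀ z ∈ closedBall κ ρ, Tendsto (fun k : ℕ => g^[k] z) atTop (𝓝 x)

/-- Integration over the first coordinate, from below. -/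
def S_FUBL : Prop := ∀ (d : ℕ) (c : Fin (d + 1) → ℂ) (ρ : ℝ) (S : Set (Fin (d + 1) → ℂ))
  (m : ENNReal), 0 < ρ → (∀ b : Fin (d + 1) → ℂ, b 0 = c 0 → (∀ i, ‖b i - c i‖ ≤ ρ) →
    m ≤ volume {t : ℂ | b + (Pi.single 0 t : Fin (d + 1) → ℂ) ∈ S}) →
  m * ENNReal.ofReal ((Real.pi * ρ ^ 2) ^ d) ≤ volume S

/-- Balls of polynomials with a cycle which attracts all critical points. -/
def S_DIR : Prop := ∀ (d : ℕ) (χ : ℝ) (c₀ : ℂ), 2 ≤ d → Lyap d χ c₀ → ∀ ε : ℝ, 0 < ε →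
  ∃ r₀ : ℝ, 0 < r₀ ∧ ∀ r : ℝ, 0 < r → r ≤ r₀ → ∀ b : Fin (d + 1) → ℂ, b 0 = c₀ →
    ‖b - ee d c₀‖ ≤ r ^ (1 + ε) → ∃ t₁ : ℂ, ‖t₁‖ ≤ r / 2 ∧
      closedBall (b + (Pi.single 0 t₁ : Fin (d + 1) → ℂ)) (r ^ ((d : ℝ) / ((d : ℝ) - 1) + ε)) ⊆ AA d

/-- Balls of polynomials with a cycle which attracts a critical point, in all directions. -/
def S_ALO : Prop := ∀ (d : ℕ) (χ : ℝ) (c₀ : ℂ), 2 ≤ d → Lyap d χ c₀ → ∀ ε : ℝ, 0 < ε →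
  ∃ C r₀ : ℝ, 1 ≤ C ∧ 0 < r₀ ∧ ∀ r : ℝ, 0 < r → r ≤ r₀ → ∀ b : Fin (d + 1) → ℂ,
    ‖b - ee d c₀‖ ≤ r → ∃ t₁ : ℂ, ‖t₁‖ ≤ C * r ∧
      closedBall (b + (Pi.single 0 t₁ : Fin (d + 1) → ℂ)) (r ^ ((d : ℝ) / ((d : ℝ) - 1) + ε)) ⊆ NA d

/-- The lower bound of the volume. -/
def S_VLO : Prop := ∀ (d : ℕ) (χ : ℝ) (c₀ : ℂ), 2 ≤ d → Lyap d χ c₀ → ∀ ε : ℝ, 0 < ε →
  ∃ r₀ : ℝ, 0 < r₀ ∧ ∀ r : ℝ, 0 < r → r ≤ r₀ →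
    ENNReal.ofReal (r ^ (2 * (d : ℝ) ^ 2 / ((d : ℝ) - 1) + ε)) ≤
      volume (AA d ∩ closedBall (ee d c₀) r)

/-- The exact exponent of the volume. -/
def S_EXV : Prop := ∀ (d : ℕ) (χ : ℝ) (c₀ : ℂ), 2 ≤ d → ‖c₀‖ < 2 → Lyap d χ c₀ →
  ∀ S : Set (Fin (d + 1) → ℂ), AA d ⊆ S → S ⊆ NE d →
    Tendsto (fun r : ℝ => Real.log (volume (S ∩ closedBall (ee d c₀) r)).toReal / Real.log r)
      (𝓝[>] 0) (𝓝 (2 * (d : ℝ) ^ 2 / ((d : ℝ) - 1)))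

/-- The exact exponent of the inradius. -/
def S_EXR : Prop := ∀ (d : ℕ) (χ : ℝ) (c₀ : ℂ), 2 ≤ d → ‖c₀‖ < 2 → Lyap d χ c₀ →
  ∀ S : Set (Fin (d + 1) → ℂ), AA d ⊆ S → S ⊆ NE d →
    Tendsto (fun r : ℝ => Real.log (sSup {ρ : ℝ | 0 ≤ ρ ∧ ∃ b : Fin (d + 1) → ℂ,
      closedBall b ρ ⊆ S ∩ closedBall (ee d c₀) r}) / Real.log r)
      (𝓝[>] 0) (𝓝 ((d : ℝ) / ((d : ℝ) - 1)))

end Pool.Agent.Y272.EX
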