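import Mathlib
import Pool.Agent.Y272.EX.Stm
import Pool.Agent.Y272.GA.Jb
import Pool.Agent.Y662.EXF.Core

/-!
# Exact exponents in the space of all polynomials: bridge to the language of polynomials
-/

set_option autoImplicit false

open Set Filter Metric MeasureTheory Topology Polynomial

namespace Pool.Agent.Y272.EX

open Pool.Agent.Y298.CA (Lyap)
open Pool.Agent.Y272.GA

variable {d : ℕ} {c₀ : ℂ}

/-- one cycle attracts all critical points -/
def OS (T : ℂ[X]) : Prop := ∃ n : ℕ, 0 < n ∧ ∃ x : ℂ, (fun z : ℂ => T.eval z)^[n] x = x ∧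
  ‖deriv ((fun z : ℂ => T.eval z)^[n]) x‖ < 1 ∧ ∀ c : ℂ, T.derivative.eval c = 0 →
    Tendsto (fun k : ℕ => (fun z : ℂ => T.eval z)^[n * k] c) atTop (𝓝 x)

/-- a cycle attracts a critical point -/
def HS (T : ℂ[X]) : Prop := ∃ n : ℕ, 0 < n ∧ ∃ x : ℂ, (fun z : ℂ => T.eval z)^[n] x = x ∧
  ‖deriv ((fun z : ℂ => T.eval z)^[n]) x‖ < 1 ∧ ∃ c : ℂ, T.derivative.eval c = 0 ∧
    Tendsto (fun k : ℕ => (fun z : ℂ => T.eval z)^[n * k] c) atTop (𝓝 x)

theorem OS_pol (b : Fin (d + 1) → ℂ) : OS (pol d b) ↔ b ∈ AA d := by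
  have h1 : (fun z : ℂ => (pol d b).eval z) = FF d b := funext (pol_eval b)
  unfold OS AA
  rw [h1]
  simp only [pol_derivative_eval, Set.mem_ofPred_eq]

theorem HS_pol (b : Fin (d + 1) → ℂ) : HS (pol d b) ↔ b ∈ NA d := by
  have h1 : (fun z : ℂ => (pol d b).eval z) = FF d b := funext (pol_eval b)
  unfold HS NA
  rw [h1]
  simp only [pol_derivative_eval, Set.mem_ofPred_eq]

theorem pol_deg (hd : 2 ≤ d) {b : Fin (d + 1) → ℂ} (hb : b ∈ closedBall (ee d c₀) (1 / 2)) :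
    (pol d b).natDegree = d := by
  refine le_antisymm (pol_natDegree b) (le_natDegree_of_ne_zero ?_)
  have h1 : (pol d b).coeff d = 1 + b (Fin.last d) := by
    unfold pol
    rw [coeff_add, coeff_X_pow, if_pos rfl, Polynomial.finset_sum_coeff,
      Finset.sum_eq_single (Fin.last d)]
    · rw [coeff_C_mul, coeff_X_pow, if_pos (by simp), mul_one]
    · intro i _ hi
      have h1 : d ≠ (i : ℕ) := by
        intro h
        apply hi
        exact Fin.ext (by simpa using h.symm)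
      rw [coeff_C_mul, coeff_X_pow, if_neg h1, mul_zero]
    · intro h
      exact absurd (Finset.mem_univ _) h
  have h2 : ‖b (Fin.last d)‖ ≤ 1 / 2 := by
    rw [mem_closedBall, dist_eq_norm] at hb
    have h3 := (norm_le_pi_norm (b - ee d c₀) (Fin.last d)).trans hb
    have h4 : Fin.last d ≠ 0 := by
      intro h
      have := congrArg Fin.val h
      simp at this
      omega
    rwa [Pi.sub_apply, ee_ne d c₀ h4, sub_zero] at h3
  rw [h1]
  intro h0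
  have h3 : b (Fin.last d) = -1 := by linear_combination h0
  rw [h3, norm_neg, norm_one] at h2
  norm_num at h2

theorem exv (hV : S_VLO) (hd : 2 ≤ d) (hc : ‖c₀‖ < 2) {χ : ℝ} (hL : Lyap d χ c₀)
    {S : Set (Fin (d + 1) → ℂ)} {r₁ : ℝ} (hr₁ : 0 < r₁)
    (hS1 : AA d ∩ closedBall (ee d c₀) r₁ ⊆ S) (hS2 : S ∩ closedBall (ee d c₀) r₁ ⊆ NE d) :
    Tendsto (fun r : ℝ => Real.log (volume (S ∩ closedBall (ee d c₀) r)).toReal / Real.log r)
      (𝓝[>] 0) (𝓝 (2 * (d : ℝ) ^ 2 / ((d : ℝ) - 1))) := by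
  refine Pool.Agent.Y662.EXF.core2 d hd (ee d c₀) S ?_ ?_
  · intro ε hε
    obtain ⟨r₀, hr₀, H⟩ := hV d χ c₀ hd hL ε hε
    refine ⟨min r₀ r₁, lt_min hr₀ hr₁, fun r hr hrr => ?_⟩
    refine (H r hr (hrr.trans (min_le_left _ _))).trans (measure_mono ?_)
    rintro b ⟨hb1, hb2⟩
    exact ⟨hS1 ⟨hb1, closedBall_subset_closedBall (hrr.trans (min_le_right _ _)) hb2⟩, hb2⟩
  · intro E hE0 hE
    obtain ⟨C, ε, hC, hε, H⟩ := Pool.Agent.Y272.GA.vol_all Pool.Agent.Y574.GA.t hd hc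
      (Pool.Agent.Y272.GA.ar_lyap hd hL (by linarith) hE)
    refine ⟨C, min ε r₁, hC, lt_min hε hr₁, fun r hr hrr => ?_⟩
    refine (measure_mono ?_).trans (H r hr (hrr.trans (min_le_left _ _)))
    rintro b ⟨hb1, hb2⟩
    exact ⟨hS2 ⟨hb1, closedBall_subset_closedBall (hrr.trans (min_le_right _ _)) hb2⟩, hb2⟩

/-- properties between the existence of a cycle attracting all critical points, and a
non-escaping critical point -/
structure Btw (d : ℕ) (P : ℂ[X] → Prop) : Prop where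
  of : ∀ T : ℂ[X], T.natDegree = d → OS T → P T
  ne : ∀ T : ℂ[X], T.natDegree = d → P T → ¬ SL T

theorem btw_one (hd : 2 ≤ d) {P : ℂ[X] → Prop} (h : Btw d P) :
    AA d ∩ closedBall (ee d c₀) (1 / 2) ⊆ {b | P (pol d b)} := by
  rintro b ⟨hb1, hb2⟩
  exact h.of _ (pol_deg hd hb2) ((OS_pol b).mpr hb1)

theorem btw_two (hd : 2 ≤ d) {P : ℂ[X] → Prop} (h : Btw d P) :
    {b | P (pol d b)} ∩ closedBall (ee d c₀) (1 / 2) ⊆ NE d := by
  rintro b ⟨hb1, hb2⟩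
  have h1 := h.ne _ (pol_deg hd hb2) hb1
  rwa [SL_pol, not_not] at h1

theorem set_eq (P : ℂ[X] → Prop) {r : ℝ} (hr : 0 < r) :
    {a | a ∈ Bx d c₀ r ∧ P (∑ i : Fin (d + 1), C (a i) * X ^ (i : ℕ))} =
      (fun a => a + -xx d) ⁻¹' ({b | P (pol d b)} ∩ closedBall (ee d c₀) r) := by
  ext a
  rw [mem_preimage, Set.mem_ofPred_eq, mem_Bx hr.le, poly_eq, ← sub_eq_add_neg]
  exact and_comm

/-- **The exponent of the volume.** -/
theorem st_exv (hV : S_VLO) (hd : 2 ≤ d) (hc : ‖c₀‖ < 2) {χ : ℝ} (hL : Lyap d χ c₀)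
    {P : ℂ[X] → Prop} (h : Btw d P) :
    Tendsto (fun r : ℝ => Real.log (volume {a | a ∈ Bx d c₀ r ∧
      P (∑ i : Fin (d + 1), C (a i) * X ^ (i : ℕ))}).toReal / Real.log r)
      (𝓝[>] 0) (𝓝 (2 * (d : ℝ) ^ 2 / ((d : ℝ) - 1))) := by
  refine (exv hV hd hc hL (by norm_num) (btw_one hd h) (btw_two hd h)).congr' ?_
  filter_upwards [self_mem_nhdsWithin] with r hr
  rw [set_eq P hr, measure_preimage_add_right]

/-- the exponent of the inradius, local form -/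
def S_EXR' : Prop := ∀ (d : ℕ) (χ : ℝ) (c₀ : ℂ), 2 ≤ d → ‖c₀‖ < 2 → Lyap d χ c₀ →
  ∀ (S : Set (Fin (d + 1) → ℂ)) (r₁ : ℝ), 0 < r₁ → AA d ∩ closedBall (ee d c₀) r₁ ⊆ S →
    S ∩ closedBall (ee d c₀) r₁ ⊆ NE d →
    Tendsto (fun r : ℝ => Real.log (sSup {ρ : ℝ | 0 ≤ ρ ∧ ∃ b : Fin (d + 1) → ℂ,
      closedBall b ρ ⊆ S ∩ closedBall (ee d c₀) r}) / Real.log r)
      (𝓝[>] 0) (𝓝 ((d : ℝ) / ((d : ℝ) - 1)))

/-- **The exponent of the inradius.** -/
theorem st_exr (hR : S_EXR') (hd : 2 ≤ d) (hc : ‖c₀‖ < 2) {χ : ℝ} (hL : Lyap d χ c₀)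
    {P : ℂ[X] → Prop} (h : Btw d P) :
    Tendsto (fun r : ℝ => Real.log (sSup {ρ : ℝ | 0 ≤ ρ ∧ ∃ b : Fin (d + 1) → ℂ,
      closedBall b ρ ⊆ {a | a ∈ Bx d c₀ r ∧
        P (∑ i : Fin (d + 1), C (a i) * X ^ (i : ℕ))}}) / Real.log r)
      (𝓝[>] 0) (𝓝 ((d : ℝ) / ((d : ℝ) - 1))) := by
  refine (hR d χ c₀ hd hc hL _ (1 / 2) (by norm_num) (btw_one hd h) (btw_two hd h)).congr' ?_
  filter_upwards [self_mem_nhdsWithin] with r hr
  congr 3
  ext ρ
  have hshift : ∀ (b : Fin (d + 1) → ℂ) (S : Set (Fin (d + 1) → ℂ)),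
      closedBall b ρ ⊆ (fun a => a + -xx d) ⁻¹' S ↔ closedBall (b + -xx d) ρ ⊆ S := by
    intro b S
    constructor
    · intro h1 x hx
      have h2 : x + xx d ∈ closedBall b ρ := by
        rw [mem_closedBall, dist_eq_norm] at hx ⊢
        convert hx using 2
        ring
      have h3 := h1 h2
      rw [mem_preimage] at h3
      simpa using h3
    · intro h1 x hx
      rw [mem_preimage]
      apply h1
      rw [mem_closedBall, dist_eq_norm] at hx ⊢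
      convert hx using 2
      ring
  rw [set_eq P hr]
  simp only [Set.mem_ofPred_eq, hshift]
  constructor
  · rintro ⟨h0, b, hb⟩
    refine ⟨h0, b + xx d, ?_⟩
    rwa [add_neg_cancel_right]
  · rintro ⟨h0, b, hb⟩
    exact ⟨h0, b + -xx d, hb⟩

/-- **All directions.** -/
theorem st_dir (hA : S_ALO) (hd : 2 ≤ d) {χ : ℝ} (hL : Lyap d χ c₀) {ε : ℝ} (hε : 0 < ε) :
    ∃ K r₀ : ℝ, 1 ≤ K ∧ 0 < r₀ ∧ ∀ r : ℝ, 0 < r → r ≤ r₀ → ∀ T ∈ Nr d c₀ r, ∃ t : ℂ, ‖t‖ ≤ K * r ∧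
      ∀ T' : ℂ[X], T'.natDegree ≤ d →
        (∀ i : ℕ, ‖T'.coeff i - (T + C t).coeff i‖ ≤ r ^ ((d : ℝ) / ((d : ℝ) - 1) + ε)) →
          HS T' := by
  obtain ⟨K, r₀, hK, hr₀, H⟩ := hA d χ c₀ hd hL ε hε
  refine ⟨K, r₀, hK, hr₀, ?_⟩
  intro r hr hrr T hT
  obtain ⟨t, ht, H1⟩ := H r hr hrr (bb d T) (norm_bb hr.le hT.2)
  refine ⟨t, ht, ?_⟩
  intro T' hT' hcl
  rw [← pol_bb hT', HS_pol]
  apply H1
  rw [mem_closedBall, dist_eq_norm, pi_norm_le_iff_of_nonneg (by positivity)]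
  intro i
  have h1 : (bb d T' - (bb d T + (Pi.single 0 t : Fin (d + 1) → ℂ))) i =
      T'.coeff i - (T + C t).coeff i := by
    have h2 : (Pi.single 0 t : Fin (d + 1) → ℂ) i = (C t : ℂ[X]).coeff i := by
      by_cases hi : i = 0
      · subst hi
        simp
      · rw [Pi.single_eq_of_ne hi, coeff_C, if_neg]
        intro h
        exact hi (Fin.ext (by simpa using h))
    rw [Pi.sub_apply, Pi.add_apply, h2, coeff_add]
    unfold bb
    ring
  rw [h1]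
  exact hcl i

/-- one sink attracts all critical points: no critical point escapes -/
theorem OS_not_esc {T : ℂ[X]} (h : OS T) {c : ℂ} (hc : T.derivative.eval c = 0) :
    ¬ Tendsto (fun k : ℕ => ‖(fun z : ℂ => T.eval z)^[k] c‖) atTop atTop := by
  obtain ⟨n, hn, x, -, -, H⟩ := h
  intro h1
  have h2 : Tendsto (fun k : ℕ => n * k) atTop atTop := tendsto_id.const_mul_atTop' hn
  exact not_tendsto_nhds_of_tendsto_atTop (h1.comp h2) _ (H c hc).norm

theorem HS_not_SL {T : ℂ[X]} (h : HS T) : ¬ SL T := by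
  obtain ⟨n, hn, x, -, -, c, hc, H⟩ := h
  intro h1
  have h2 : Tendsto (fun k : ℕ => n * k) atTop atTop := tendsto_id.const_mul_atTop' hn
  exact not_tendsto_nhds_of_tendsto_atTop ((h1 c hc).comp h2) _ H.norm

theorem exists_crit {T : ℂ[X]} (hT : 2 ≤ T.natDegree) : ∃ c : ℂ, T.derivative.eval c = 0 := by
  have h1 : T.derivative.natDegree = T.natDegree - 1 := Polynomial.natDegree_derivative T
  have h2 : T.derivative.degree ≠ 0 := by
    intro h
    have := natDegree_eq_of_degree_eq_some (n := 0) (by simpa using h)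
    omega
  obtain ⟨c, hc⟩ := IsAlgClosed.exists_root T.derivative h2
  exact ⟨c, hc⟩

/-- **Two-sided bounds in all translation families.** -/
theorem st_two (hA : S_ALO) (hd : 2 ≤ d) (hc : ‖c₀‖ < 2) {χ : ℝ} (hL : Lyap d χ c₀) {ε : ℝ}
    (hε : 0 < ε) :
    ∃ K r₀ : ℝ, 1 ≤ K ∧ 0 < r₀ ∧ ∀ r : ℝ, 0 < r → r ≤ r₀ → ∀ T ∈ Nr d c₀ r,
      (∃ t : ℂ, ‖t‖ ≤ K * r ∧ ∀ T' : ℂ[X], T'.natDegree ≤ d →
        (∀ i : ℕ, ‖T'.coeff i - (T + C t).coeff i‖ ≤ r ^ ((d : ℝ) / ((d : ℝ) - 1) + ε)) → HS T') ∧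
      ENNReal.ofReal (r ^ (2 * (d : ℝ) / ((d : ℝ) - 1) + ε)) ≤
        volume {t : ℂ | ‖t‖ ≤ K * r ∧ ¬ SL (T + C t)} ∧
      volume {t : ℂ | ‖t‖ ≤ K * r ∧ ¬ SL (T + C t)} ≤
        ENNReal.ofReal (r ^ (2 * (d : ℝ) / ((d : ℝ) - 1) - ε)) := by
  have hdR : (2 : ℝ) ≤ d := by exact_mod_cast hd
  have hd1 : 0 < (d : ℝ) - 1 := by linarith
  set D : ℝ := (d : ℝ) / ((d : ℝ) - 1) with hD
  have hD1 : 1 < D := by
    rw [hD, lt_div_iff₀ hd1]
    linarith
  have hD2 : 2 * (d : ℝ) / ((d : ℝ) - 1) = 2 * D := by rw [hD]; ring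
  obtain ⟨K, r₀, hK, hr₀, H⟩ := st_dir hA hd hL (by positivity : 0 < ε / 4)
  set E : ℝ := max 0 (2 * D - ε / 2) with hE
  have hE1 : E < 2 * (d : ℝ) / ((d : ℝ) - 1) := by
    rw [hD2]
    exact max_lt (by linarith) (by linarith)
  have hE0 : 0 ≤ E := le_max_left _ _
  have hE2 : 2 * D - ε / 2 ≤ E := le_max_right _ _
  obtain ⟨K₂, r₂, hK₂, hr₂, H2⟩ := st_area hd hc (ar_lyap hd hL hE0 hE1)
  have hK1 : 0 < K + 1 := by linarith
  have hq : 0 < ε / 2 := by positivity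
  set M : ℝ := K₂ * (K + 1) ^ E with hM
  have hM0 : 0 < M := by positivity
  refine ⟨K + 1, min (min r₀ 1) (min (r₂ / (K + 1)) ((1 / M) ^ (ε / 2)⁻¹)), by linarith,
    lt_min (lt_min hr₀ one_pos) (lt_min (by positivity) (by positivity)), ?_⟩
  intro r hr hrr T hT
  have hr1 : r ≤ 1 := hrr.trans ((min_le_left _ _).trans (min_le_right _ _))
  have hr0 : r ≤ r₀ := hrr.trans ((min_le_left _ _).trans (min_le_left _ _))
  have hr2 : (K + 1) * r ≤ r₂ := by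
    have h1 : r ≤ r₂ / (K + 1) := hrr.trans ((min_le_right _ _).trans (min_le_left _ _))
    rw [le_div_iff₀ hK1] at h1
    linarith
  have hr3 : M * r ^ (ε / 2) ≤ 1 := by
    have h1 : r ^ (ε / 2) ≤ ((1 / M) ^ (ε / 2)⁻¹) ^ (ε / 2) :=
      Real.rpow_le_rpow hr.le (hrr.trans ((min_le_right _ _).trans (min_le_right _ _))) hq.le
    rw [← Real.rpow_mul (by positivity), inv_mul_cancel₀ hq.ne', Real.rpow_one] at h1
    calc M * r ^ (ε / 2) ≤ M * (1 / M) := by gcongr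
      _ = 1 := by field_simp
  obtain ⟨t₁, ht₁, H1⟩ := H r hr hr0 T hT
  set η : ℝ := r ^ (D + ε / 4) with hη
  have hη0 : 0 < η := Real.rpow_pos_of_pos hr _
  have hηr : η ≤ r := by
    calc η ≤ r ^ (1 : ℝ) := Real.rpow_le_rpow_of_exponent_ge hr hr1 (by linarith)
      _ = r := Real.rpow_one r
  refine ⟨⟨t₁, ht₁.trans (by nlinarith), ?_⟩, ?_, ?_⟩
  · intro T' hT' hcl
    refine H1 T' hT' fun i => (hcl i).trans ?_
    exact Real.rpow_le_rpow_of_exponent_ge hr hr1 (by linarith)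
  · have h1 : closedBall t₁ η ⊆ {t : ℂ | ‖t‖ ≤ (K + 1) * r ∧ ¬ SL (T + C t)} := by
      intro t ht
      rw [mem_closedBall, dist_eq_norm] at ht
      refine ⟨?_, HS_not_SL (H1 (T + C t) ?_ ?_)⟩
      · calc ‖t‖ = ‖t₁ + (t - t₁)‖ := by congr 1; ring
          _ ≤ ‖t₁‖ + ‖t - t₁‖ := norm_add_le _ _
          _ ≤ K * r + r := add_le_add ht₁ (ht.trans hηr)
          _ = (K + 1) * r := by ring
      · exact natDegree_add_le_of_degree_le hT.1 (by rw [natDegree_C]; omega)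
      · intro i
        rw [coeff_add, coeff_add, add_sub_add_left_eq_sub, ← coeff_sub, ← C_sub, coeff_C]
        split_ifs
        · exact ht
        · rw [norm_zero]
          exact hη0.le
    refine le_trans ?_ (measure_mono h1)
    rw [Pool.Agent.Y298.CA.vol_cb' _ hη0.le]
    apply ENNReal.ofReal_le_ofReal
    have h2 : r ^ (2 * D + ε) ≤ η ^ 2 := by
      rw [hη, ← Real.rpow_natCast, ← Real.rpow_mul hr.le]
      exact Real.rpow_le_rpow_of_exponent_ge hr hr1 (by push_cast; linarith)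
    rw [hD2]
    have h3 := Real.pi_gt_three
    have h4 : 0 < η ^ 2 := by positivity
    nlinarith
  · have hT2 : ∀ i : ℕ, ‖T.coeff i - (X ^ d + C c₀ : ℂ[X]).coeff i‖ ≤ (K + 1) * r := by
      intro i
      refine (hT.2 i).trans ?_
      nlinarith
    refine (H2 ((K + 1) * r) (by positivity) hr2 T hT.1 hT2).trans ?_
    apply ENNReal.ofReal_le_ofReal
    rw [hD2]
    calc K₂ * ((K + 1) * r) ^ E = M * r ^ E := by
          rw [hM, Real.mul_rpow hK1.le hr.le]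
          ring
      _ ≤ M * r ^ (2 * D - ε / 2) := by
          gcongr M * ?_
          exact Real.rpow_le_rpow_of_exponent_ge hr hr1 hE2
      _ = (M * r ^ (ε / 2)) * r ^ (2 * D - ε) := by
          rw [mul_assoc M, ← Real.rpow_add hr]
          congr 2
          ring
      _ ≤ 1 * r ^ (2 * D - ε) := by gcongr
      _ = _ := one_mul _

end Pool.Agent.Y272.EX
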