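import Mathlib
import Pool.Agent.Y272.EX.Brg
import Pool.Agent.Y500.EXF.Core
import Pool.Agent.Y298.EX.All

/-!
# The exponents of the volume and of the inradius
-/

set_option autoImplicit false

open Set Filter Metric MeasureTheory Topology

namespace Pool.Agent.Y272.EX

open Pool.Agent.Y298.CA (Lyap lim_of ev_const)
open Pool.Agent.Y272.GA
open Pool.Agent.Y500.EXF (norm_sg AR_le)

theorem OS_sub_AA {d : ℕ} : Pool.Agent.Y298.EX.OS d ⊆ AA d := by
  rintro b ⟨n, x, hn, h1, h2, h3⟩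
  exact ⟨n, hn, x, h1, h2, h3⟩

theorem vlo : S_VLO := by
  intro d χ c₀ hd hL ε hε
  have hdR : (2 : ℝ) ≤ d := by exact_mod_cast hd
  have hd1 : 0 < (d : ℝ) - 1 := by linarith
  have h1 := Pool.Agent.Y298.EX.low_fin_all hd hL hε
  rw [eventually_iff, mem_nhdsGT_iff_exists_Ioc_subset] at h1
  obtain ⟨r₀, hr₀, H⟩ := h1
  refine ⟨r₀, hr₀, fun r hr hrr => ?_⟩
  have h2 := (H ⟨hr, hrr⟩).1
  have h3 : 2 * (d : ℝ) ^ 2 / ((d : ℝ) - 1) = 2 * ((d : ℝ) + 1) + 2 / ((d : ℝ) - 1) := by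
    field_simp
    ring
  rw [h3]
  exact h2.trans (measure_mono (inter_subset_inter_left _ OS_sub_AA))

theorem exr : S_EXR' := by
  intro d χ c₀ hd hc hL S r₁ hr₁ hS1 hS2
  have hdR : (2 : ℝ) ≤ d := by exact_mod_cast hd
  have hd1 : 0 < (d : ℝ) - 1 := by linarith
  obtain ⟨D, hD⟩ : ∃ D : ℝ, D = (d : ℝ) / ((d : ℝ) - 1) := ⟨_, rfl⟩
  have hD1 : 1 < D := by
    rw [hD, lt_div_iff₀ hd1]
    linarith
  have h2D : 2 * (d : ℝ) / ((d : ℝ) - 1) = 2 * D := by
    rw [hD]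
    ring
  rw [← hD]
  have hmem0 : ∀ᶠ r : ℝ in 𝓝[>] 0, 0 < r := self_mem_nhdsWithin
  have hlt : ∀ a : ℝ, 0 < a → ∀ᶠ r : ℝ in 𝓝[>] 0, r < a := fun a ha =>
    mem_nhdsWithin_of_mem_nhds (gt_mem_nhds ha)
  refine lim_of ?_ ?_
  · intro ε hε
    have h1 := Pool.Agent.Y298.EX.low_fin_all hd hL (by positivity : 0 < ε / 2)
    rw [← hD] at h1
    filter_upwards [hmem0, hlt 1 one_pos, hlt r₁ hr₁, h1] with r hr0 hr1 hr2 ⟨_, b, hb⟩
    refine le_csSup ⟨r, fun ρ hρ => AR_le hρ⟩ ⟨by positivity, b, ?_⟩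
    intro y hy
    have h2 : y ∈ ball b (r ^ (D + ε / 2)) := by
      refine closedBall_subset_ball ?_ hy
      exact Real.rpow_lt_rpow_of_exponent_gt hr0 hr1 (by linarith)
    obtain ⟨h3, h4⟩ := hb h2
    exact ⟨hS1 ⟨OS_sub_AA h3, closedBall_subset_closedBall hr2.le h4⟩, h4⟩
  · intro ε hε
    set E : ℝ := max 0 (2 * D - ε) with hE
    have hE1 : E < 2 * (d : ℝ) / ((d : ℝ) - 1) := by
      rw [h2D]
      exact max_lt (by linarith) (by linarith)
    obtain ⟨C, ε₁, hC, hε₁, H⟩ := area_family hd hc (ar_lyap hd hL (le_max_left _ _) hE1)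
    filter_upwards [hmem0, hlt 1 one_pos, hlt r₁ hr₁, hlt ε₁ hε₁, ev_const (C := C) hε]
      with r hr0 hr1 hr2 hr3 hr4
    refine Real.sSup_le ?_ (by positivity)
    intro ρ hρ
    have hρr := AR_le hρ
    obtain ⟨h0, b, hb⟩ := hρ
    have hbr : ‖b - ee d c₀‖ ≤ r := by
      have := (hb (mem_closedBall_self h0)).2
      rwa [mem_closedBall, dist_eq_norm] at this
    have h5 := H r hr0 hr3.le b hbr
    have h6 : closedBall (0 : ℂ) ρ ⊆ {t : ℂ | ‖t‖ ≤ r ∧ b + Pi.single 0 t ∈ NE d} := by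
      intro t ht
      rw [mem_closedBall_zero_iff] at ht
      have h7 : b + (Pi.single 0 t : Fin (d + 1) → ℂ) ∈ closedBall b ρ := by
        rw [mem_closedBall, dist_eq_norm, add_sub_cancel_left, norm_sg]
        exact ht
      obtain ⟨h8, h9⟩ := hb h7
      exact ⟨ht.trans hρr, hS2 ⟨h8, closedBall_subset_closedBall hr2.le h9⟩⟩
    have h7 := (measure_mono h6).trans h5
    rw [Pool.Agent.Y298.CA.vol_cb' _ h0, ENNReal.ofReal_le_ofReal_iff (by positivity)] at h7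
    have h8 : C * r ^ E ≤ (r ^ (D - ε)) ^ 2 := by
      have h9 : (r ^ (D - ε)) ^ 2 = r ^ (2 * D - 2 * ε) := by
        rw [← Real.rpow_natCast, ← Real.rpow_mul hr0.le]
        congr 1
        push_cast
        ring
      rw [h9]
      calc C * r ^ E ≤ C * r ^ (2 * D - ε) := by
            gcongr C * ?_
            exact Real.rpow_le_rpow_of_exponent_ge hr0 hr1.le (le_max_right _ _)
        _ = (C * r ^ ε) * r ^ (2 * D - 2 * ε) := by
            rw [mul_assoc, ← Real.rpow_add hr0]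
            congr 2
            ring
        _ ≤ 1 * r ^ (2 * D - 2 * ε) := by gcongr
        _ = _ := one_mul _
    have h9 : ρ ^ 2 ≤ (r ^ (D - ε)) ^ 2 := by
      have h10 := Real.pi_gt_three
      have h11 : 0 ≤ ρ ^ 2 := by positivity
      nlinarith
    exact (pow_le_pow_iff_left₀ h0 (by positivity) (by norm_num)).mp h9

end Pool.Agent.Y272.EX
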